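import Pool.Agent.helper22.RG9.Spec

/-! # Row rg9:CNT (MP_a2a22c_al): the dimension of a column -/

set_option autoImplicit false

namespace Pool.Agent.RG9

open Matrix Pool.Agent.H48SL Pool.Agent.UG

/-- the common kernel of a space of matrices -/
def CNT_W {n : ℕ} (S : Submodule ℚ (MQ n)) : Submodule ℚ (Fin n → ℚ) where
  carrier := {w | ∀ X ∈ S, X *ᵥ w = 0}
  add_mem' := by
    intro u w hu hw X hX
    rw [Matrix.mulVec_add, hu X hX, hw X hX, add_zero]
  zero_mem' := by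
    intro X _
    exact Matrix.mulVec_zero X
  smul_mem' := by
    intro c w hw X hX
    rw [Matrix.mulVec_smul, hw X hX, smul_zero]

theorem CNT_memW {n : ℕ} (S : Submodule ℚ (MQ n)) (w : Fin n → ℚ) : w ∈ CNT_W S ↔ ∀ X ∈ S, X *ᵥ w = 0 := Iff.rfl

/-- the stabilizer of a subspace -/
def CNT_P {n : ℕ} (W : Submodule ℚ (Fin n → ℚ)) : Submodule ℚ (MQ n) where
  carrier := {Y | ∀ w ∈ W, Y *ᵥ w ∈ W}
  add_mem' := by
    intro u w hu hw x hx
    rw [Matrix.add_mulVec]
    exact W.add_mem (hu x hx) (hw x hx)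
  zero_mem' := by
    intro x _
    rw [Matrix.zero_mulVec]
    exact W.zero_mem
  smul_mem' := by
    intro c w hw x hx
    rw [Matrix.smul_mulVec]
    exact W.smul_mem c (hw x hx)

theorem CNT_memP {n : ℕ} (W : Submodule ℚ (Fin n → ℚ)) (Y : MQ n) : Y ∈ CNT_P W ↔ ∀ w ∈ W, Y *ᵥ w ∈ W := Iff.rfl

/-- the map to `Hom (W, V / W)` -/
def CNT_th {n : ℕ} (W : Submodule ℚ (Fin n → ℚ)) : MQ n →ₗ[ℚ] (W →ₗ[ℚ] ((Fin n → ℚ) ⧸ W)) where
  toFun Y := W.mkQ ∘ₗ Y.mulVecLin ∘ₗ W.subtype
  map_add' := by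
    intro X Y
    refine LinearMap.ext fun w => ?_
    show W.mkQ ((X + Y) *ᵥ (w : Fin n → ℚ)) = W.mkQ (X *ᵥ (w : Fin n → ℚ)) + W.mkQ (Y *ᵥ (w : Fin n → ℚ))
    rw [Matrix.add_mulVec, map_add]
  map_smul' := by
    intro c X
    refine LinearMap.ext fun w => ?_
    show W.mkQ ((c • X) *ᵥ (w : Fin n → ℚ)) = c • W.mkQ (X *ᵥ (w : Fin n → ℚ))
    rw [Matrix.smul_mulVec, map_smul]

theorem CNT_th_apply {n : ℕ} (W : Submodule ℚ (Fin n → ℚ)) (Y : MQ n) (w : W) :
    CNT_th W Y w = W.mkQ (Y *ᵥ (w : Fin n → ℚ)) := rfl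

theorem CNT_th_P {n : ℕ} (W : Submodule ℚ (Fin n → ℚ)) (Y : MQ n) (hY : Y ∈ CNT_P W) : CNT_th W Y = 0 := by
  refine LinearMap.ext fun w => ?_
  rw [CNT_th_apply, Submodule.mkQ_apply, LinearMap.zero_apply, Submodule.Quotient.mk_eq_zero]
  exact hY _ w.2

/-- surjectivity on the matrices of trace zero -/
theorem CNT_surj {n : ℕ} (W : Submodule ℚ (Fin n → ℚ)) (T : W →ₗ[ℚ] ((Fin n → ℚ) ⧸ W)) :
    ∃ M : MQ n, M.trace = 0 ∧ CNT_th W M = T := by
  obtain ⟨C, hC⟩ := W.exists_isCompl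
  let qe := Submodule.quotientEquivOfIsCompl W C hC
  let pr := Submodule.linearProjOfIsCompl W C hC
  let f : (Fin n → ℚ) →ₗ[ℚ] (Fin n → ℚ) := C.subtype ∘ₗ (qe : ((Fin n → ℚ) ⧸ W) →ₗ[ℚ] C) ∘ₗ T ∘ₗ pr
  have hf : ∀ x, f x = ((qe (T (pr x)) : C) : Fin n → ℚ) := fun x => rfl
  have hff : ∀ x, f (f x) = 0 := by
    intro x
    rw [hf (f x), hf x]
    have h1 : pr ((qe (T (pr x)) : C) : Fin n → ℚ) = 0 :=
      Submodule.linearProjOfIsCompl_apply_right hC (qe (T (pr x)))
    rw [h1, map_zero, map_zero]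
    rfl
  refine ⟨LinearMap.toMatrix' f, ?_, ?_⟩
  · have hM : LinearMap.toMatrix' f * LinearMap.toMatrix' f = 0 := by
      rw [← LinearMap.toMatrix'_comp]
      have : f ∘ₗ f = 0 := LinearMap.ext hff
      rw [this, map_zero]
    have hnil : IsNilpotent (LinearMap.toMatrix' f) := ⟨2, by rw [pow_two]; exact hM⟩
    exact (Matrix.isNilpotent_trace_of_isNilpotent hnil).eq_zero
  · refine LinearMap.ext fun w => ?_
    rw [CNT_th_apply, LinearMap.toMatrix'_mulVec, hf]
    have h1 : pr (w : Fin n → ℚ) = w := Submodule.linearProjOfIsCompl_apply_left hC w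
    rw [h1, Submodule.mkQ_apply]
    have h2 := Submodule.quotientEquivOfIsCompl_symm_apply W C hC (qe (T w))
    rw [← h2]
    exact qe.symm_apply_apply (T w)

/-- membership in `W` -/
theorem CNT_W_iff {n m : ℕ} (a : Fin m → Fin m → Submodule ℚ (MQ n)) (r : Fin m) (w : Fin n → ℚ)
    (h : ∀ k, r ≠ k → ∀ X ∈ a r k, X *ᵥ w = 0) : w ∈ CNT_W (rowS a r) := by
  intro X hX
  unfold rowS at hX
  induction hX using Submodule.span_induction with
  | mem X hX =>
    obtain ⟨k, hk, hX⟩ := hX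
    exact h k hk X hX
  | zero => exact Matrix.zero_mulVec w
  | add X Y _ _ hX hY => rw [Matrix.add_mulVec, hX, hY, add_zero]
  | smul c X _ hX => rw [Matrix.smul_mulVec, hX, smul_zero]

theorem CNT_row {n m : ℕ} (a : Fin m → Fin m → Submodule ℚ (MQ n)) (r k : Fin m) (hk : r ≠ k) (X : MQ n) (hX : X ∈ a r k) :
    X ∈ rowS a r := Submodule.subset_span ⟨k, hk, hX⟩

/-- the key inclusion -/
theorem CNT_le (hLIE : LIE_stmt) {n m : ℕ} (hm : 3 ≤ m) (a : Fin m → Fin m → Submodule ℚ (MQ n)) (r : Fin m) (ha : LGr a) :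
    SS a ≤ colS a r ⊔ CNT_P (CNT_W (rowS a r)) := by
  unfold SS
  rw [Submodule.span_le]
  rintro Z (⟨i, j, hij, hZ⟩ | ⟨i, j, hij, A, hA, B, hB, rfl⟩)
  · by_cases hjr : j = r
    · subst hjr
      exact Submodule.mem_sup_left (Submodule.subset_span ⟨i, hij, hZ⟩)
    · apply Submodule.mem_sup_right
      by_cases hir : i = r
      · subst hir
        intro w hw
        rw [hw Z (CNT_row a i j hij Z hZ)]
        exact Submodule.zero_mem _
      · intro w hw
        apply CNT_W_iff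
        intro k hk X hX
        have h1 : X *ᵥ w = 0 := hw X (CNT_row a r k hk X hX)
        rw [Matrix.mulVec_mulVec]
        by_cases hki : k = i
        · subst hki
          have h2 : X * Z - Z * X ∈ a r j := by
            rw [ha.gen r k j hk hij (Ne.symm hjr)]
            exact Submodule.subset_span ⟨X, hX, Z, hZ, rfl⟩
          have h3 : (X * Z - Z * X) *ᵥ w = 0 := hw _ (CNT_row a r j (Ne.symm hjr) _ h2)
          rw [Matrix.sub_mulVec, ← Matrix.mulVec_mulVec w Z X, h1, Matrix.mulVec_zero, sub_zero] at h3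
          exact h3
        · have h2 : X * Z = Z * X := ha.comm r k i j hk hij hki (Ne.symm hjr) X hX Z hZ
          rw [h2, ← Matrix.mulVec_mulVec, h1, Matrix.mulVec_zero]
  · apply Submodule.mem_sup_right
    intro w hw
    apply CNT_W_iff
    intro k hk X hX
    have h1 : X *ᵥ w = 0 := hw X (CNT_row a r k hk X hX)
    have h2 := (hLIE n m hm a ha).1 i j r k hij hk X hX A hA B hB
    have h3 : (X * (A * B - B * A) - (A * B - B * A) * X) *ᵥ w = 0 := hw _ (CNT_row a r k hk _ h2)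
    rw [Matrix.sub_mulVec, ← Matrix.mulVec_mulVec w (A * B - B * A) X, h1, Matrix.mulVec_zero, sub_zero] at h3
    rw [Matrix.mulVec_mulVec]
    exact h3

theorem CNT (hLIE : LIE_stmt) : CNT_stmt := by
  intro n m hn hm a r ha hS hN hj
  obtain ⟨v, hv0, hv⟩ := COM n hn (rowS a r) hN
  obtain ⟨W, hW⟩ : ∃ W, W = CNT_W (rowS a r) := ⟨_, rfl⟩
  have hle := CNT_le hLIE hm a r ha
  rw [← hW] at hle
  have hW0 : W ≠ ⊥ := by
    intro h
    have : v ∈ W := by
      rw [hW]
      exact hv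
    rw [h, Submodule.mem_bot] at this
    exact hv0 this
  have hW1 : W ≠ ⊤ := by
    intro h
    obtain ⟨j, hrj, hne⟩ := hj
    apply hne
    rw [Submodule.eq_bot_iff]
    intro X hX
    have h1 : ∀ w : Fin n → ℚ, X *ᵥ w = 0 := by
      intro w
      have h2 : w ∈ W := by
        rw [h]
        exact Submodule.mem_top
      rw [hW] at h2
      exact h2 X (CNT_row a r j hrj X hX)
    ext i k
    have h3 := congrFun (h1 (Pi.single k 1)) i
    rw [Matrix.mulVec_single_one] at h3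
    exact h3
  have hsurj : Function.Surjective ((CNT_th W).domRestrict (colS a r)) := by
    intro T
    obtain ⟨M, hM0, hM⟩ := CNT_surj W T
    have h1 := hle (hS M hM0)
    rw [Submodule.mem_sup] at h1
    obtain ⟨c, hc, p, hp, hcp⟩ := h1
    refine ⟨⟨c, hc⟩, ?_⟩
    rw [LinearMap.domRestrict_apply, ← hM, ← hcp, map_add, CNT_th_P W p hp, add_zero]
  have h1 := LinearMap.finrank_range_le ((CNT_th W).domRestrict (colS a r))
  rw [LinearMap.range_eq_top.2 hsurj, finrank_top, Module.finrank_linearMap] at h1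
  have h2 := Submodule.finrank_quotient_add_finrank W
  rw [Module.finrank_fin_fun] at h2
  have h3 : 0 < Module.finrank ℚ W := Submodule.one_le_finrank_iff.2 hW0
  have h4 : Module.finrank ℚ W < n := by
    have := Submodule.finrank_lt hW1
    rwa [Module.finrank_fin_fun] at this
  have h5 : 0 < Module.finrank ℚ ((Fin n → ℚ) ⧸ W) := by omega
  generalize Module.finrank ℚ W = d at *
  generalize Module.finrank ℚ ((Fin n → ℚ) ⧸ W) = q at *
  have h6 : n - 1 ≤ d * q := by
    obtain ⟨d', rfl⟩ := Nat.exists_eq_succ_of_ne_zero h3.ne'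
    obtain ⟨q', rfl⟩ := Nat.exists_eq_succ_of_ne_zero h5.ne'
    have : n = d' + q' + 2 := by omega
    subst this
    have : (d'.succ) * (q'.succ) = d' * q' + d' + q' + 1 := by
      simp only [Nat.succ_eq_add_one]
      ring
    omega
  exact h6.trans h1

end Pool.Agent.RG9
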